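import Pool.Agent.Lib.helper15.SolMean

set_option autoImplicit false

namespace Pool.Agent.Results.MP_529953_al.Q2False

open RegularWreathProduct

/-- Amenability: a left-invariant finitely additive probability measure on all subsets. -/
def Amenable (G : Type) [Group G] : Prop :=
  ∃ m : Set G → ℝ, (∀ A, 0 ≤ m A) ∧ m Set.univ = 1 ∧
    (∀ A B, Disjoint A B → m (A ∪ B) = m A + m B) ∧
    ∀ (g : G) (A : Set G), m ((fun x => g * x) '' A) = m A

/-- The ring `R` contains direct sums of arbitrarily many nonzero right ideals. -/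
def InfUDim (R : Type) [Ring R] : Prop :=
  ∀ n : ℕ, ∃ I : Fin n → Submodule Rᵐᵒᵖ R, (∀ i, I i ≠ ⊥) ∧ iSupIndep I

theorem amen (G : Type) [Group G] (h : Group.IsSolvable G) : Amenable G := by
  obtain ⟨m, hm⟩ := Lib.helper15.SolMean.exists_mean G h
  have hb : ∀ A : Set G, Lib.helper15.SolMean.Bd (A.indicator (1 : G → ℝ)) := fun A =>
    ⟨1, fun x => by by_cases h : x ∈ A <;> simp [h]⟩
  refine ⟨fun A => m.M (A.indicator 1), fun A => ?_, ?_, fun A B hAB => ?_, fun g A => ?_⟩
  · rw [← m.const 0]
    exact m.mono _ _ (Lib.helper15.SolMean.bd_const _) (hb A) fun x =>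
      Set.indicator_nonneg (fun _ _ => zero_le_one) x
  · simp only [Set.indicator_univ]
    exact m.const 1
  · simp only [Set.indicator_union_of_disjoint hAB]
    exact m.add _ _ (hb A) (hb B)
  · simp only
    rw [← hm g _ (hb _)]
    congr 1
    funext x
    by_cases hx : x ∈ A <;> simp [hx, Set.indicator]

def base (Q : Type) [Group Q] : (Q → Multiplicative ℤ) →* RegularWreathProduct (Multiplicative ℤ) Q where
  toFun f := ⟨f, 1⟩
  map_one' := rfl
  map_mul' _ _ := by ext <;> simp

theorem base_tf {Q : Type} [Group Q] (f : Q → Multiplicative ℤ) (h : IsOfFinOrder (base Q f)) :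
    f = 1 := by
  have hi : Function.Injective (base Q) := fun a b h => congrArg RegularWreathProduct.left h
  rw [hi.isOfFinOrder_iff] at h
  exact h.eq_one'

theorem reg {k G : Type} [Field k] [Group G] (g g' : G) (h : ¬ IsOfFinOrder (g⁻¹ * g')) :
    IsLeftRegular (MonoidAlgebra.single g (1 : k) - MonoidAlgebra.single g' 1) := by
  rw [isLeftRegular_iff_right_eq_zero_of_mul]
  intro m hm
  have h1 : ∀ z, m.coeff (g⁻¹ * g' * z) = m.coeff z := fun z => by
    have := congrArg (fun u : MonoidAlgebra k G => u.coeff (g' * z)) hm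
    simpa [sub_mul, sub_eq_zero, mul_assoc] using this
  have h2 : ∀ (j : ℕ) z, m.coeff ((g⁻¹ * g') ^ j * z) = m.coeff z := fun j z => by
    induction j with
    | zero => simp
    | succ j ih => rw [pow_succ', mul_assoc, h1, ih]
  ext z
  by_contra hz
  refine Set.infinite_of_injective_forall_mem (s := (m.coeff.support : Set G))
    (f := fun j : ℕ => (g⁻¹ * g') ^ j * z)
    ((mul_left_injective z).comp (injective_pow_iff_not_isOfFinOrder.2 h)) (fun j => ?_)
    (Finset.finite_toSet _)
  simpa [h2] using hz

theorem vand {B R : Type} [CommRing B] [Ring R] (φ : B →+* R) {n : ℕ} (y : Fin n → B)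
    (hy : ∀ a b, a ≠ b → IsLeftRegular (φ (y a - y b))) (m : Fin n → R)
    (h : ∀ a, ∑ i : Fin n, φ (y a) ^ (i : ℕ) * m i = 0) (l : Fin n) : m l = 0 := by
  have h1 : IsLeftRegular (φ (Matrix.vandermonde y).det) := by
    rw [Matrix.det_vandermonde]
    have hm : ∀ a b, IsLeftRegular (φ a) → IsLeftRegular (φ b) → IsLeftRegular (φ (a * b)) :=
      fun a b ha hb => by rw [map_mul]; exact ha.mul hb
    have h1 : IsLeftRegular (φ 1) := by rw [map_one]; exact isRegular_one.left
    exact Finset.prod_induction _ (fun b => IsLeftRegular (φ b)) hm h1 fun i _ =>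
      Finset.prod_induction _ (fun b => IsLeftRegular (φ b)) hm h1 fun j hj =>
        hy _ _ (Finset.mem_Ioi.1 hj).ne'
  refine isLeftRegular_iff_right_eq_zero_of_mul.1 h1 _ ?_
  have h2 : ∑ a, φ ((Matrix.vandermonde y).adjugate l a) *
      ∑ i : Fin n, φ (y a) ^ (i : ℕ) * m i = 0 := by simp [h]
  simp only [Finset.mul_sum, ← mul_assoc, ← map_pow, ← map_mul] at h2
  rw [Finset.sum_comm] at h2
  simp only [← Finset.sum_mul, ← map_sum, ← Matrix.vandermonde_apply, ← Matrix.mul_apply,
    Matrix.adjugate_mul] at h2
  rw [Finset.sum_eq_single l (fun b _ hb => by simp [Matrix.one_apply_ne hb.symm]) (by simp)] at h2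
  simpa using h2

abbrev CC (p : ℕ) : Type := Multiplicative (ZMod p)

abbrev QQ (p : ℕ) : Type := ℕ → CC p

theorem result (p : ℕ) (hp : p.Prime) (k : Type) [Field k] [CharP k p] :
    ∃ (G : Type) (_ : Group G), Amenable G ∧
      (∃ N : ℕ, ∀ F : Subgroup G, Finite F → ¬ p ∣ Nat.card F → Nat.card F ≤ N) ∧
      InfUDim (MonoidAlgebra k G) := by
  classical
  have := Fact.mk hp
  refine ⟨RegularWreathProduct (Multiplicative ℤ) (QQ p), inferInstance, amen _ ?_,
    ⟨1, fun F hF hd => ?_⟩, fun n => ?_⟩
  · exact Group.isSolvable_of_ker_le_range (base (QQ p)) rightHom fun x hx =>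
      ⟨x.left, RegularWreathProduct.ext rfl (Eq.symm hx)⟩
  · rw [Subgroup.card_le_one_iff_eq_bot, Subgroup.eq_bot_iff_forall]
    intro g hg
    have h1 : IsOfFinOrder g := F.subtype.isOfFinOrder (isOfFinOrder_of_finite (⟨g, hg⟩ : F))
    have h2 : g ^ p = base (QQ p) (g ^ p).left := by
      refine RegularWreathProduct.ext rfl ?_
      have : (g ^ p).right = g.right ^ p := map_pow rightHom g p
      rw [this]
      funext i
      exact Multiplicative.toAdd.injective (by simp [base])
    have h3 : g ^ p = 1 := by
      have := h1.pow (n := p)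
      rw [h2] at this ⊢
      rw [base_tf _ this, map_one]
    have h4 := Nat.dvd_gcd (orderOf_dvd_of_pow_eq_one h3) (F.orderOf_dvd_natCard hg)
    rwa [(hp.coprime_iff_not_dvd.2 hd).gcd_eq_one, Nat.dvd_one, orderOf_eq_one_iff] at h4
  · let ι : (Fin n → (CC p)) →* (QQ p) :=
      { toFun := fun u i => if h : i < n then u ⟨i, h⟩ else 1
        map_one' := by funext i; simp
        map_mul' := fun u v => by
          funext i
          simp only [Pi.mul_apply]
          split_ifs <;> simp }
    have hι : Function.Injective ι := fun u v h => funext fun i => by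
      simpa [ι] using congrFun h i
    let o := MonoidAlgebra.of k (RegularWreathProduct (Multiplicative ℤ) (QQ p))
    let S := ∑ u, o (inl (ι u))
    have hS : ∀ u, o (inl (ι u)) * S = S := fun u => by
      simp only [S, Finset.mul_sum, ← map_mul]
      exact Equiv.sum_comp (Equiv.mulLeft u) fun v => o (inl (ι v))
    have hS0 : S ≠ 0 := fun h => by
      have := congrArg (fun u : MonoidAlgebra k _ => u.coeff (inl (ι 1))) h
      simp only [S, o, MonoidAlgebra.of_apply, MonoidAlgebra.coeff_sum, MonoidAlgebra.coeff_single,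
        Finsupp.finsetSum_apply] at this
      rw [Finset.sum_eq_single 1 (fun b _ hb => Finsupp.single_eq_of_ne' fun e =>
        hb (hι (congrArg RegularWreathProduct.right e))) (by simp)] at this
      simp at this
    let d : (QQ p) → (QQ p) → Multiplicative ℤ := fun h => Pi.mulSingle h (Multiplicative.ofAdd 1)
    have hd : ∀ h : (QQ p), inl h * base (QQ p) (d 1) = base (QQ p) (d h) * inl h := fun h => by
      refine RegularWreathProduct.ext (funext fun q => ?_) (by simp [base])
      simp [base, d, Pi.mulSingle_apply, inv_mul_eq_one, eq_comm]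
    let v : Fin n → MonoidAlgebra k _ := fun i => o (base (QQ p) (d 1)) ^ (i : ℕ) * S
    refine ⟨fun i => Submodule.span _ {v i}, fun i h => hS0 ?_, ?_⟩
    · rw [Submodule.span_singleton_eq_bot] at h
      exact (((Group.isUnit _).map o).pow _).mul_right_eq_zero.1 h
    · rw [iSupIndep_iff_finsetSum_eq_zero_imp_eq_zero]
      intro s w hw h0 l hl
      simp only [Submodule.mem_span_singleton] at hw
      choose! r hr using hw
      let c : Fin n → Fin n → (CC p) := fun a => Pi.mulSingle a (Multiplicative.ofAdd 1)
      have := vand (MonoidAlgebra.mapDomainRingHom k (base (QQ p)))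
        (fun a => MonoidAlgebra.single (d (ι (c a))) 1) (fun a b hab => ?_)
        (fun i => if i ∈ s then S * (r i).unop else 0) (fun a => ?_) l
      · rw [← hr l hl]
        simp only [hl, if_true] at this
        simp [v, mul_assoc, this]
      · simp only [map_sub, MonoidAlgebra.mapDomainRingHom_apply, MonoidAlgebra.mapDomain_single]
        refine reg _ _ fun h => ?_
        rw [← map_inv, ← map_mul] at h
        have h1 := congrFun (inv_mul_eq_one.1 (base_tf _ h)) (ι (c a))
        have h2 : ι (c a) ≠ ι (c b) := fun e => by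
          have := congrFun (hι e) a
          simp [c, hab] at this
        simp [d, h2] at h1
      · have h1 : ∀ i : ℕ, o (inl (ι (c a))) * o (base (QQ p) (d 1)) ^ i =
            o (base (QQ p) (d (ι (c a)))) ^ i * o (inl (ι (c a))) := fun i =>
          SemiconjBy.pow_right (show SemiconjBy _ _ _ by
            rw [SemiconjBy, ← map_mul, hd, map_mul]) i
        have h2 := congrArg (fun z => o (inl (ι (c a))) * z) h0
        simp only [Finset.mul_sum, mul_zero] at h2
        simp only [mul_ite, mul_zero, Finset.sum_ite_mem, Finset.univ_inter]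
        refine (Finset.sum_congr rfl fun i hi => ?_).trans h2
        rw [← hr i hi]
        simp only [v, MulOpposite.smul_eq_mul_unop, ← mul_assoc, h1]
        rw [mul_assoc _ _ S, hS]
        simp [o]

end Pool.Agent.Results.MP_529953_al.Q2False
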